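import Pool.Agent.K1H53.EX.Kernel

/-! # The explicit kernel satisfies condition (H) -/

set_option autoImplicit false

open MeasureTheory Filter Topology

namespace Pool.Agent.K1H31.EX

open Pool.Agent.K1H53.EX

theorem r32 {x : ℝ} (hx : 0 < x) : x ^ (-(3 / 2 : ℝ)) = 1 / (Real.sqrt x) ^ 3 := by
  rw [Real.rpow_neg hx.le, Real.sqrt_eq_rpow, ← Real.rpow_natCast (x ^ (1 / 2 : ℝ)) 3,
    ← Real.rpow_mul hx.le, one_div]
  norm_num

theorem mul52 {x : ℝ} (hx : 0 < x) : x * x ^ (-(5 / 2 : ℝ)) = x ^ (-(3 / 2 : ℝ)) := by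
  nth_rewrite 1 [← Real.rpow_one x]
  rw [← Real.rpow_add hx]
  norm_num

theorem sq52 {x : ℝ} (hx : 0 < x) : x ^ 2 * x ^ (-(5 / 2 : ℝ)) = x ^ (-(1 / 2 : ℝ)) := by
  rw [← Real.rpow_natCast x 2, ← Real.rpow_add hx]
  norm_num

theorem sum32 (n : ℕ) : ∑ k ∈ Finset.range (n + 1), ((k : ℝ) + 1) ^ (-(3 / 2 : ℝ)) ≤
    3 - 2 / Real.sqrt ((n : ℝ) + 1) := by
  induction n with
  | zero => norm_num
  | succ n ih =>
    rw [Finset.sum_range_succ]
    have ha : (0 : ℝ) < (n : ℝ) + 1 := by positivity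
    have hb : (0 : ℝ) < ((n + 1 : ℕ) : ℝ) + 1 := by positivity
    rw [r32 hb]
    set a := Real.sqrt ((n : ℝ) + 1) with hadef
    set b := Real.sqrt (((n + 1 : ℕ) : ℝ) + 1) with hbdef
    have ha0 : 0 < a := Real.sqrt_pos.2 ha
    have hb0 : 0 < b := Real.sqrt_pos.2 hb
    have ha2 : a ^ 2 = (n : ℝ) + 1 := Real.sq_sqrt ha.le
    have hb2 : b ^ 2 = (n : ℝ) + 1 + 1 := by
      rw [hbdef, Real.sq_sqrt hb.le]
      push_cast
      ring
    have hab : a ≤ b := by
      apply Real.sqrt_le_sqrt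
      push_cast
      linarith
    have key : 1 / b ^ 3 ≤ 2 / a - 2 / b := by
      have e : 2 / a - 2 / b = 2 * (b - a) / (a * b) := by
        field_simp
      have e2 : (b - a) * (b + a) = 1 := by nlinarith
      rw [e, div_le_div_iff₀ (by positivity) (by positivity)]
      have hba : 0 < b + a := by positivity
      have e3 : b - a = 1 / (b + a) := by
        rw [eq_div_iff hba.ne']
        exact e2
      rw [e3]
      have : 1 * (a * b) * (b + a) ≤ 2 * b ^ 3 := by nlinarith [mul_pos ha0 hb0, mul_nonneg ha0.le (sub_nonneg.2 hab), mul_nonneg hb0.le (sub_nonneg.2 hab), mul_nonneg (mul_nonneg hb0.le hb0.le) (sub_nonneg.2 hab), mul_nonneg (mul_nonneg ha0.le hb0.le) (sub_nonneg.2 hab)]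
      calc 1 * (a * b) = (1 * (a * b) * (b + a)) / (b + a) := by field_simp
        _ ≤ (2 * b ^ 3) / (b + a) := by gcongr
        _ = 2 * (1 / (b + a)) * b ^ 3 := by ring
    linarith

theorem summ32 : Summable fun k : ℕ => ((k : ℝ) + 1) ^ (-(3 / 2 : ℝ)) := by
  have h := (summable_nat_add_iff 1).2
    ((Real.summable_nat_rpow (p := -(3 / 2 : ℝ))).2 (by norm_num))
  simpa using h

theorem summ52 : Summable fun k : ℕ => ((k : ℝ) + 1) ^ (-(5 / 2 : ℝ)) := by
  have h := (summable_nat_add_iff 1).2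
    ((Real.summable_nat_rpow (p := -(5 / 2 : ℝ))).2 (by norm_num))
  simpa using h

theorem T_le : ∑' k : ℕ, ((k : ℝ) + 1) ^ (-(3 / 2 : ℝ)) ≤ 3 := by
  apply Real.tsum_le_of_sum_range_le
  · intro n
    positivity
  · intro n
    have h1 : ∑ k ∈ Finset.range n, ((k : ℝ) + 1) ^ (-(3 / 2 : ℝ)) ≤
        ∑ k ∈ Finset.range (n + 1), ((k : ℝ) + 1) ^ (-(3 / 2 : ℝ)) := by
      rw [Finset.sum_range_succ]
      have : 0 ≤ ((n : ℝ) + 1) ^ (-(3 / 2 : ℝ)) := by positivity
      linarith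
    have h2 := sum32 n
    have h3 : 0 ≤ 2 / Real.sqrt ((n : ℝ) + 1) := by positivity
    linarith

theorem S_le : ∑' k : ℕ, ((k : ℝ) + 1) ^ (-(5 / 2 : ℝ)) ≤ 3 := by
  refine le_trans ?_ T_le
  refine Summable.tsum_le_tsum ?_ summ52 summ32
  intro k
  apply Real.rpow_le_rpow_of_exponent_le
  · have : (0 : ℝ) ≤ k := Nat.cast_nonneg k
    linarith
  · norm_num

theorem p0_neg (n : ℕ) : p0 (-((n : ℤ) + 1)) = (1 / 10) * ((n : ℝ) + 1) ^ (-(5 / 2 : ℝ)) := by
  unfold p0
  rw [if_pos (by omega)]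
  push_cast
  rw [neg_neg]

theorem p0_one : p0 1 = 1 - (1 / 10) * ∑' k : ℕ, ((k : ℝ) + 1) ^ (-(5 / 2 : ℝ)) := by
  unfold p0
  norm_num

theorem p0_other (n : ℕ) (h : n ≠ 1) : p0 (n : ℤ) = 0 := by
  unfold p0
  rw [if_neg (by omega), if_neg (by omega)]

theorem p0_one_pos : 0 < p0 1 := by
  rw [p0_one]
  have := S_le
  linarith

theorem t_KER : S_KER := by
  have hq := p0_one_pos
  refine ⟨⟨?_, ?_, ?_, ?_, ?_, ?_⟩, ?_⟩
  · -- nonneg
    intro m
    by_cases h : m < 0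
    · obtain ⟨n, hn⟩ : ∃ n : ℕ, m = -((n : ℤ) + 1) := ⟨(-m - 1).toNat, by omega⟩
      rw [hn, p0_neg]
      positivity
    · obtain ⟨n, hn⟩ : ∃ n : ℕ, m = n := ⟨m.toNat, by omega⟩
      rw [hn]
      by_cases h1 : n = 1
      · rw [h1]
        exact_mod_cast hq.le
      · rw [p0_other n h1]
  · -- sum one
    have h1 : HasSum (fun n : ℕ => p0 (n : ℤ)) (p0 1) := by
      have := hasSum_single (f := fun n : ℕ => p0 (n : ℤ)) 1 (fun n hn => p0_other n hn)
      simpa using this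
    have h2 : HasSum (fun n : ℕ => p0 (-((n : ℤ) + 1)))
        ((1 / 10) * ∑' k : ℕ, ((k : ℝ) + 1) ^ (-(5 / 2 : ℝ))) := by
      simp_rw [p0_neg]
      exact summ52.hasSum.mul_left _
    have h3 := HasSum.of_nat_of_neg_add_one (f := p0) h1 h2
    rw [p0_one] at h3
    convert h3 using 1
    ring
  · -- irreducible
    rw [eq_top_iff]
    intro m _
    have h1 : (1 : ℤ) ∈ AddSubmonoid.closure {m : ℤ | 0 < p0 m} :=
      AddSubmonoid.subset_closure hq
    have h2 : (-1 : ℤ) ∈ AddSubmonoid.closure {m : ℤ | 0 < p0 m} := by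
      apply AddSubmonoid.subset_closure
      have := p0_neg 0
      simp only [Nat.cast_zero, zero_add, Real.one_rpow, mul_one] at this
      change 0 < p0 (-1)
      rw [this]
      norm_num
    rcases le_total 0 m with h | h
    · obtain ⟨n, hn⟩ : ∃ n : ℕ, m = n := ⟨m.toNat, by omega⟩
      have := AddSubmonoid.nsmul_mem _ h1 n
      rw [hn]
      simpa using this
    · obtain ⟨n, hn⟩ : ∃ n : ℕ, m = -(n : ℤ) := ⟨(-m).toNat, by omega⟩
      have := AddSubmonoid.nsmul_mem _ h2 n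
      rw [hn]
      simpa using this
  · -- mean
    apply Summable.of_nat_of_neg_add_one
    · apply summable_of_ne_finset_zero (s := {1})
      intro n hn
      rw [p0_other n (by simpa using hn), mul_zero]
    · have h : (fun n : ℕ => |((-((n : ℤ) + 1) : ℤ) : ℝ)| * p0 (-((n : ℤ) + 1))) =
          fun n : ℕ => (1 / 10) * ((n : ℝ) + 1) ^ (-(3 / 2 : ℝ)) := by
        funext n
        have hn : (0 : ℝ) < (n : ℝ) + 1 := by positivity
        rw [p0_neg]
        push_cast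
        rw [abs_neg, abs_of_pos hn, ← mul52 hn]
        ring
      rw [h]
      exact summ32.mul_left _
  · -- drift
    have h1 : HasSum (fun n : ℕ => ((n : ℤ) : ℝ) * p0 (n : ℤ)) (p0 1) := by
      have := hasSum_single (f := fun n : ℕ => ((n : ℤ) : ℝ) * p0 (n : ℤ)) 1
        (fun n hn => by rw [p0_other n hn, mul_zero])
      simpa using this
    have h2 : HasSum (fun n : ℕ => ((-((n : ℤ) + 1) : ℤ) : ℝ) * p0 (-((n : ℤ) + 1)))
        (-(1 / 10) * ∑' k : ℕ, ((k : ℝ) + 1) ^ (-(3 / 2 : ℝ))) := by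
      have h : (fun n : ℕ => ((-((n : ℤ) + 1) : ℤ) : ℝ) * p0 (-((n : ℤ) + 1))) =
          fun n : ℕ => (-(1 / 10)) * ((n : ℝ) + 1) ^ (-(3 / 2 : ℝ)) := by
        funext n
        have hn : (0 : ℝ) < (n : ℝ) + 1 := by positivity
        rw [p0_neg]
        push_cast
        rw [← mul52 hn]
        ring
      rw [h]
      exact summ32.hasSum.mul_left _
    have h3 := HasSum.of_nat_of_neg_add_one (f := fun m : ℤ => (m : ℝ) * p0 m) h1 h2
    rw [h3.tsum_eq, p0_one]
    have := T_le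
    have := S_le
    linarith
  · -- second moment
    intro h
    have h1 := (summable_nat_add_iff 1).2 h
    have h2 : (fun n : ℕ => ((n + 1 : ℕ) : ℝ) ^ 2 * p0 (-((n + 1 : ℕ) : ℤ))) =
        fun n : ℕ => (1 / 10) * ((n + 1 : ℕ) : ℝ) ^ (-(1 / 2 : ℝ)) := by
      funext n
      have hn : (0 : ℝ) < (n : ℝ) + 1 := by positivity
      have e := p0_neg n
      push_cast at e ⊢
      rw [e, ← sq52 hn]
      ring
    rw [h2] at h1
    have h3 : Summable fun n : ℕ => ((n + 1 : ℕ) : ℝ) ^ (-(1 / 2 : ℝ)) := by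
      have := h1.mul_left 10
      refine this.congr fun n => ?_
      ring
    have h4 := (summable_nat_add_iff (f := fun n : ℕ => (n : ℝ) ^ (-(1 / 2 : ℝ))) 1).1 h3
    have h5 := Real.summable_nat_rpow.1 h4
    norm_num at h5
  · intro m hm
    obtain ⟨n, rfl⟩ : ∃ n : ℕ, m = n + 1 := ⟨m - 1, by omega⟩
    have e := p0_neg n
    push_cast at e ⊢
    rw [e]

end Pool.Agent.K1H31.EX
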